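import Pool.Agent.MP5b7155.Embedded

/-!
# Closed totally geodesic surfaces in knot complements and hidden symmetries

Let `M = ℍ³/Γ` be a hyperbolic knot complement and let `G` be a discrete group of isometries of
hyperbolic 3-space which contains `Γ` with finite index (for a non-arithmetic knot: any group of
symmetries and hidden symmetries, orientation reversing ones included).  If the plane `P` covers a
closed immersed totally geodesic surface of `M`, then `G` preserves the colouring of the complement
of the translates of `P` by two colours which changes across every translate.  In particular `P` is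
never a mirror of `G`, and if the translates of `P` are disjoint then no element of `G` exchanges
the two sides of `P`.
-/

namespace Pool.Agent.Results.MP_5b7155_gt.HiddenColouring

open Pool.Agent.MP5b7155

theorem result (Γ G : Subgroup Iso) (hΓ : KnotLike Γ) (hG : ∀ g ∈ G, IsIsom g)
    (hd : IsDiscrete G) (hle : Γ ≤ G) (hfi : Γ.relIndex G ≠ 0) (N : Herm) (hN : form N N = -1)
    (hcl : CoversClosedSurface Γ N) :
    (∀ x ∈ H3, (∀ M ∈ walls G N, form M x ≠ 0) → ∀ g ∈ G,
      (sep G N x (g x)).Finite ∧ Even (sep G N x (g x)).ncard) ∧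
    (∀ p ∈ plane N, (∀ M ∈ walls G N, form M p = 0 → M = N ∨ M = -N) →
      ∀ g ∈ G, (g N = N ∨ g N = -N) →
        (sep G N p (g p)).Finite ∧ (g N = -N ↔ Odd (sep G N p (g p)).ncard)) ∧
    (∀ r ∈ G, ¬ ∀ X, r X = X + (2 * form N X) • N) ∧
    ((∀ g ∈ G, g N = N ∨ g N = -N ∨ Disjoint (plane N) (plane (g N))) →
      ∀ g ∈ G, g N ≠ -N) :=
  ⟨fun _ hx ox g hg => ⟨sep_finite hG hd hle hcl hx (isom_H3 (hG g hg) hx),
      even_sep hΓ hG hd hle hfi hcl hx ox hg⟩,
    fun _ hp hgen g hg hgN => ⟨sep_finite hG hd hle hcl hp.1 (isom_H3 (hG g hg) hp.1),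
      side_parity hΓ hG hd hle hfi hN hcl hp hgen hg hgN⟩,
    fun _ hr => no_reflection hΓ hG hd hle hfi hN hcl hr,
    fun hdisj _ hg => no_swap hΓ hG hd hle hfi hN hcl hdisj hg⟩

end Pool.Agent.Results.MP_5b7155_gt.HiddenColouring
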